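import Pool.Agent.helper72.ODK.Spec

/-!
# Row ASW of project ODK (MP_7e34bc_co)
-/

set_option autoImplicit false

namespace Pool.Agent.helper72.UP

open Finset

private theorem ASW_exp (t x r : ℝ) (ht : 1440 ≤ t) (hx : Real.exp t = x) (hr0 : 0 ≤ r)
    (hr : r ^ 2 = x) : 12 * r < x / 2 * Real.exp (-(t / 8 + 256)) := by
  have h1 : r = Real.exp (t / 2) := by
    have h2 : r ^ 2 = Real.exp (t / 2) ^ 2 := by
      rw [hr, ← hx, ← Real.exp_nat_mul]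
      congr 1
      push_cast
      ring
    exact (pow_left_inj₀ hr0 (Real.exp_pos _).le two_ne_zero).1 h2
  have h3 : x * Real.exp (-(t / 8 + 256)) = Real.exp (t / 2) * Real.exp (3 * t / 8 - 256) := by
    rw [← hx, ← Real.exp_add, ← Real.exp_add]
    congr 1
    ring
  have h4 : 25 ≤ Real.exp (3 * t / 8 - 256) := by
    have := Real.add_one_le_exp (3 * t / 8 - 256)
    linarith
  have h5 : 0 < Real.exp (t / 2) := Real.exp_pos _
  have h6 : x / 2 * Real.exp (-(t / 8 + 256)) =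
      Real.exp (t / 2) * Real.exp (3 * t / 8 - 256) / 2 := by
    rw [← h3]; ring
  rw [h6, h1]
  nlinarith

private theorem ASW_div (y m q x t : ℝ) (hy0 : 0 ≤ y) (hy : y ≤ q) (hx : 0 < x) (ht : 0 ≤ t)
    (hm : x / 4 ≤ m + 1) (hq : 2 * q ^ 2 ≤ x * t / 64 + 32 * x) :
    2 * y ^ 2 / (m + 1) ≤ t / 16 + 128 := by
  rw [div_le_iff₀ (by linarith)]
  have h1 : y ^ 2 ≤ q ^ 2 := pow_le_pow_left₀ hy0 hy 2
  have h2 : (t / 16 + 128) * (x / 4) ≤ (t / 16 + 128) * (m + 1) :=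
    mul_le_mul_of_nonneg_left hm (by linarith)
  nlinarith

theorem ASW (h : FIW_stmt) : ASW_stmt := by
  refine ⟨⌈Real.exp 1440⌉₊, ?_⟩
  intro n hn K hK hKr
  have hx1 : Real.exp 1440 ≤ (n : ℝ) := (Nat.le_ceil _).trans (by exact_mod_cast hn)
  have hx0 : (0 : ℝ) < n := (Real.exp_pos _).trans_le hx1
  have hlog : 1440 ≤ Real.log n := by
    rw [Real.le_log_iff_exp_le hx0]; exact hx1
  obtain ⟨t, ht⟩ : ∃ t, Real.log n = t := ⟨_, rfl⟩
  have hxt : Real.exp t = n := by rw [← ht]; exact Real.exp_log hx0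
  rw [ht] at hlog hKr
  have hxq : t ^ 2 / 2 ≤ n := by
    rw [← hxt]
    have := Real.quadratic_le_exp_of_nonneg (by linarith : 0 ≤ t)
    linarith
  have hx720 : 720 * t ≤ n := by nlinarith
  have hxbig : (1036800 : ℝ) ≤ n := by nlinarith
  obtain ⟨s, hs⟩ : ∃ s, Real.sqrt (n * t) = s := ⟨_, rfl⟩
  have hs0 : 0 ≤ s := by rw [← hs]; exact Real.sqrt_nonneg _
  have hs2 : s ^ 2 = n * t := by
    rw [← hs]; exact Real.sq_sqrt (mul_nonneg hx0.le (by linarith))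
  rw [hs] at hKr
  have hsx : 26 * s ≤ n := by
    have h1 : (26 * s) ^ 2 ≤ (n : ℝ) ^ 2 := by nlinarith
    exact le_of_sq_le_sq h1 hx0.le
  obtain ⟨r, hr⟩ : ∃ r, Real.sqrt (n : ℝ) = r := ⟨_, rfl⟩
  have hr0 : 0 ≤ r := by rw [← hr]; exact Real.sqrt_nonneg _
  have hr2 : r ^ 2 = n := by rw [← hr]; exact Real.sq_sqrt hx0.le
  have hr1 : 1000 ≤ r := by
    rw [← hr]
    exact Real.le_sqrt_of_sq_le (by linarith)
  have hrx : 1000 * r ≤ n := by nlinarith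
  have hn1 : 1036800 ≤ n := by exact_mod_cast hxbig
  have hz : ((Nat.sqrt (n / 2) : ℕ) : ℝ) ≤ r := by
    rw [← hr]
    apply Real.le_sqrt_of_sq_le
    have h1 : Nat.sqrt (n / 2) ^ 2 ≤ n := by
      have := Nat.sqrt_le' (n / 2)
      omega
    exact_mod_cast h1
  obtain ⟨z, hzz⟩ : ∃ z, Nat.sqrt (n / 2) = z := ⟨_, rfl⟩
  rw [hzz] at hz
  have hm : (n : ℝ) ≤ 4 * ((n / 2 / 2 : ℕ) : ℝ) + 3 := by
    have : n ≤ 4 * (n / 2 / 2) + 3 := by omega
    exact_mod_cast this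
  have hm' : (n : ℝ) ≤ 4 * (((n - 1) / 2 / 2 : ℕ) : ℝ) + 4 := by
    have : n ≤ 4 * ((n - 1) / 2 / 2) + 4 := by omega
    exact_mod_cast this
  have ha : (n : ℝ) ≤ 2 * (((n - 1) / 2 : ℕ) : ℝ) + 2 := by
    have : n ≤ 2 * ((n - 1) / 2) + 2 := by omega
    exact_mod_cast this
  have ha2 : (((n - 1) / 2 : ℕ) : ℝ) ≤ n := by
    have : (n - 1) / 2 ≤ n := by omega
    exact_mod_cast this
  push_cast at hKr
  have hK2 : K ≤ n / 2 := by
    have h1 : 2 * (K : ℝ) ≤ n := by linarith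
    have h2 : 2 * K ≤ n := by exact_mod_cast h1
    omega
  have hy : ((K + 1 - n / 2 / 2 : ℕ) : ℝ) ≤ s / 16 + 2 * r + 2 := by
    rcases le_total (n / 2 / 2) (K + 1) with h1 | h1
    · rw [Nat.cast_sub h1]
      push_cast
      linarith
    · rw [Nat.sub_eq_zero_of_le h1]
      push_cast
      linarith
  have hy' : ((K - 1 + 2 * (z + 1) - (n - 1) / 2 / 2 : ℕ) : ℝ) ≤ s / 16 + 2 * r + 2 := by
    rcases le_total ((n - 1) / 2 / 2) (K - 1 + 2 * (z + 1)) with h1 | h1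
    · rw [Nat.cast_sub h1]
      have h2 : K - 1 + 2 * (z + 1) = K + 2 * z + 1 := by omega
      rw [h2]
      push_cast
      linarith
    · rw [Nat.sub_eq_zero_of_le h1]
      push_cast
      linarith
  refine h n K (by omega) hK hK2 ?_ ?_ ?_
  · have h1 : 4 * ((K + 1 - n / 2 / 2 : ℕ) : ℝ) ≤ ((n / 2 / 2 : ℕ) : ℝ) + 1 := by linarith
    exact_mod_cast h1
  · rw [hzz]
    have h1 : 4 * ((K - 1 + 2 * (z + 1) - (n - 1) / 2 / 2 : ℕ) : ℝ) ≤
        (((n - 1) / 2 / 2 : ℕ) : ℝ) + 1 := by linarith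
    exact_mod_cast h1
  · rw [hzz]
    have hq : 2 * (s / 16 + 2 * r + 2) ^ 2 ≤ n * t / 64 + 32 * n := by
      nlinarith [sq_nonneg (s / 16 - (2 * r + 2))]
    have h1 := ASW_div _ ((n / 2 / 2 : ℕ) : ℝ) _ n t (Nat.cast_nonneg _) hy hx0 (by linarith)
      (by linarith) hq
    have h2 := ASW_div _ (((n - 1) / 2 / 2 : ℕ) : ℝ) _ n t (Nat.cast_nonneg _) hy' hx0
      (by linarith) (by linarith) hq
    have h3 := ASW_exp t n r hlog hxt hr0 hr2
    have h4 : Real.sqrt (((n - 1) / 2 : ℕ) : ℝ) ≤ r := by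
      rw [← hr]; exact Real.sqrt_le_sqrt ha2
    have h5 : Real.exp (-(t / 8 + 256)) ≤
        Real.exp (-(2 * ((K + 1 - n / 2 / 2 : ℕ) : ℝ) ^ 2 / ((n / 2 / 2 : ℕ) + 1)) -
          2 * ((K - 1 + 2 * (z + 1) - (n - 1) / 2 / 2 : ℕ) : ℝ) ^ 2 /
            (((n - 1) / 2 / 2 : ℕ) + 1)) := by
      apply Real.exp_le_exp.2
      linarith
    have h6 : (n : ℝ) / 2 ≤ (((n - 1) / 2 : ℕ) : ℝ) + 2 := by linarith
    calc 12 * Real.sqrt (((n - 1) / 2 : ℕ) : ℝ) ≤ 12 * r := by linarith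
      _ < n / 2 * Real.exp (-(t / 8 + 256)) := h3
      _ ≤ _ := mul_le_mul h6 h5 (Real.exp_pos _).le (by positivity)

end Pool.Agent.helper72.UP
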